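import Pool.Agent.H77.WD.Lft

/-!
# H77-WE: virtual words with primes of arbitrary inertia (MP_b39724_nt, all classes, stage 2), definitions and words

`E` a finite set of primes at which the inertia is arbitrary.
* `Unz L Z φ`: `φ` is of finite type, `φ (L.t v) = 1` for `v ∉ S0`, `v ∉ Z`.
* `HonE L E Z φ`: of finite type, for `v ∉ S0`, `v ∉ E`: `φ (L.t v) ^ p = 1`, and `φ (L.t v) = 1` if `v ∉ Z`. (`Hon L Z = HonE L ∅ Z`.)
* `fraU`, `hon_eqU`, `hon_finU`, `wordsU`: as `fra`, `hon_eq`, `hon_fin`, `words`, for `Unz` (no condition on the orders). `wdE L A M E Z σ`: the word of `σ`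
  on the letters of `E` and `Z`, `wdE_spec`.
* `hon_inrE`: the conditions on the inertia groups.
-/

set_option autoImplicit false
set_option linter.dupNamespace false

open scoped NumberField
open IsDedekindDomain
open scoped Classical

noncomputable section

namespace H77.WE

open H63.MA H38.BB H38.BG H57.PC H57.BRA H77.WD

variable {K : Type} [Field K] [NumberField K] {Ω : Type} [Field Ω] [Algebra K Ω]
  {p : ℕ} {ζ : K} {D : RD0 K p ζ}

/-- of finite type, unramified outside `S0` and `Z` -/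
def Unz (L : LDs D Ω) (Z : Finset (Pl K)) {H : Type} [Group H] (φ : Gal(Ω/K) →* H) : Prop :=
  H38.ML.FT φ ∧ ∀ v, v ∉ D.S0 → v ∉ Z → φ (L.t v) = 1

/-- honest homomorphisms, arbitrary inertia at the primes of `E` -/
def HonE (L : LDs D Ω) (E Z : Finset (Pl K)) {H : Type} [Group H] (φ : Gal(Ω/K) →* H) : Prop :=
  H38.ML.FT φ ∧ ∀ v, v ∉ D.S0 → v ∉ E → φ (L.t v) ^ p = 1 ∧ (v ∉ Z → φ (L.t v) = 1)

theorem Unz.comp {L : LDs D Ω} {Z : Finset (Pl K)} {H H' : Type} [Group H] [Group H'] (f : H →* H')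
    {φ : Gal(Ω/K) →* H} (h : Unz L Z φ) : Unz L Z (f.comp φ) :=
  ⟨ft_comp f h.1, fun v hv hz => by rw [MonoidHom.comp_apply, h.2 v hv hz, map_one]⟩

theorem HonE.comp {L : LDs D Ω} {E Z : Finset (Pl K)} {H H' : Type} [Group H] [Group H']
    (f : H →* H') {φ : Gal(Ω/K) →* H} (h : HonE L E Z φ) : HonE L E Z (f.comp φ) :=
  ⟨ft_comp f h.1, fun v hv he => ⟨by
    rw [MonoidHom.comp_apply, ← map_pow, (h.2 v hv he).1, map_one], fun hz => by
    rw [MonoidHom.comp_apply, (h.2 v hv he).2 hz, map_one]⟩⟩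

theorem HonE.unz {L : LDs D Ω} {E Z : Finset (Pl K)} {H : Type} [Group H]
    {φ : Gal(Ω/K) →* H} (h : HonE L E Z φ) : Unz L (E ∪ Z) φ :=
  ⟨h.1, fun v hv hz => (h.2 v hv fun h' => hz (Finset.mem_union_left _ h')).2
    fun h' => hz (Finset.mem_union_right _ h')⟩

theorem HonE.mono {L : LDs D Ω} {E E' Z Z' : Finset (Pl K)} {H : Type} [Group H]
    {φ : Gal(Ω/K) →* H} (h : HonE L E Z φ) (hE : E ⊆ E') (hZ : Z ⊆ Z') : HonE L E' Z' φ :=
  ⟨h.1, fun v hv he => ⟨(h.2 v hv fun h' => he (hE h')).1,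
    fun hz => (h.2 v hv fun h' => he (hE h')).2 fun h' => hz (hZ h')⟩⟩

theorem hon_unz {L : LDs D Ω} {Z : Finset (Pl K)} {H : Type} [Group H] {φ : Gal(Ω/K) →* H}
    (h : Hon L Z φ) : Unz L Z φ := ⟨h.1, fun v hv hz => (h.2 v hv).2 hz⟩

theorem hon_iff {L : LDs D Ω} {Z : Finset (Pl K)} {H : Type} [Group H] {φ : Gal(Ω/K) →* H} :
    Hon L Z φ ↔ HonE L ∅ Z φ :=
  ⟨fun h => ⟨h.1, fun v hv _ => h.2 v hv⟩, fun h => ⟨h.1, fun v hv => h.2 v hv (by simp)⟩⟩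

variable [IsAlgClosure K Ω]

theorem fraU (hp : p.Prime) (hζ : IsPrimitiveRoot ζ p) (L : LDs D Ω) (A : GS D Ω)
    (Z : Finset (Pl K)) {H : Type} [Group H] [Finite H] (φ : Gal(Ω/K) →* H) (h : Unz L Z φ)
    (hP : IsPGroup p φ.range) : (OnZ A Z).map (hat L A φ) = φ.range := by
  refine le_antisymm ?_ ?_
  · rintro _ ⟨w, -, rfl⟩
    exact hat_mem L A φ w
  · by_contra hcon
    set M : Subgroup φ.range := ((OnZ A Z).map (hat L A φ)).subgroupOf φ.range with hM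
    have hM1 : M ≠ ⊤ := fun h1 => hcon (Subgroup.subgroupOf_eq_top.1 h1)
    obtain ⟨f, hf1, hf2⟩ := pg_char hp hP M hM1
    set χ : Gal(Ω/K) →* Multiplicative (ZMod p) := f.comp φ.rangeRestrict with hχ
    have hft : H38.ML.FT χ := by
      obtain ⟨E, hE, hk⟩ := h.1
      refine ⟨E, hE, fun σ hσ => ?_⟩
      have h1 := MonoidHom.mem_ker.1 (hk hσ)
      rw [MonoidHom.mem_ker, hχ, MonoidHom.comp_apply]
      have h2 : φ.rangeRestrict σ = 1 := Subtype.ext h1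
      rw [h2, map_one]
    have h1 : χ = 1 := by
      refine ch_un hp hζ L A χ hft (fun v hv => ?_) fun i => ?_
      · by_cases hz : v ∈ Z
        · refine hf2 _ ?_
          rw [hM, Subgroup.mem_subgroupOf]
          refine ⟨FreeGroup.of (Sum.inl v), Subgroup.subset_closure (Or.inl ⟨v, hz, rfl⟩), ?_⟩
          rw [hat_inl]
          rfl
        · rw [hχ, MonoidHom.comp_apply]
          have h2 : φ.rangeRestrict (L.t v) = 1 := Subtype.ext (h.2 v hv hz)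
          rw [h2, map_one]
      · refine hf2 _ ?_
        rw [hM, Subgroup.mem_subgroupOf]
        refine ⟨FreeGroup.of (Sum.inr i), Subgroup.subset_closure (Or.inr ⟨i, rfl⟩), ?_⟩
        rw [hat_inr]
        rfl
    apply hf1
    refine MonoidHom.ext fun x => ?_
    obtain ⟨σ, rfl⟩ := φ.rangeRestrict_surjective x
    exact DFunLike.congr_fun h1 σ

/-- homomorphisms with the same values at the generators are equal -/
theorem hon_eqU (hp : p.Prime) (hζ : IsPrimitiveRoot ζ p) (L : LDs D Ω) (A : GS D Ω)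
    (Z : Finset (Pl K)) {H : Type} [Group H] [Finite H] (φ φ' : Gal(Ω/K) →* H) (h : Unz L Z φ)
    (h' : Unz L Z φ') (hP : IsPGroup p φ.range) (hP' : IsPGroup p φ'.range)
    (ht : ∀ v ∈ Z, φ (L.t v) = φ' (L.t v)) (ha : ∀ i, φ (A.a i) = φ' (A.a i)) : φ = φ' := by
  have hh : Unz L Z (φ.prod φ') :=
    ⟨gtame_ft_prod _ _ h.1 h'.1, fun v hv hz => Prod.ext (h.2 v hv hz) (h'.2 v hv hz)⟩
  have hPP : IsPGroup p (φ.prod φ').range := by
    rintro ⟨_, σ, rfl⟩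
    obtain ⟨a, ha⟩ := hP ⟨φ σ, σ, rfl⟩
    obtain ⟨b, hb⟩ := hP' ⟨φ' σ, σ, rfl⟩
    have ha' : φ σ ^ (p ^ a) = 1 := congrArg Subtype.val ha
    have hb' : φ' σ ^ (p ^ b) = 1 := congrArg Subtype.val hb
    refine ⟨a + b, Subtype.ext (Prod.ext ?_ ?_)⟩
    · change φ σ ^ (p ^ (a + b)) = 1
      rw [pow_add, pow_mul, ha', one_pow]
    · change φ' σ ^ (p ^ (a + b)) = 1
      rw [pow_add, mul_comm, pow_mul, hb', one_pow]
  have h1 := fraU hp hζ L A Z _ hh hPP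
  have h2 : (OnZ A Z).map (hat L A (φ.prod φ')) ≤
      (MonoidHom.fst H H).eqLocus (MonoidHom.snd H H) := by
    rw [Subgroup.map_le_iff_le_comap]
    unfold OnZ
    rw [Subgroup.closure_le]
    rintro _ (⟨v, hv, rfl⟩ | ⟨i, rfl⟩)
    · change (hat L A (φ.prod φ') (FreeGroup.of (Sum.inl v))).1 = (hat L A (φ.prod φ')
        (FreeGroup.of (Sum.inl v))).2
      rw [hat_inl]
      exact ht v hv
    · change (hat L A (φ.prod φ') (FreeGroup.of (Sum.inr i))).1 = (hat L A (φ.prod φ')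
        (FreeGroup.of (Sum.inr i))).2
      rw [hat_inr]
      exact ha i
  refine MonoidHom.ext fun σ => ?_
  have h3 : (φ.prod φ') σ ∈ (OnZ A Z).map (hat L A (φ.prod φ')) := by
    rw [h1]
    exact ⟨σ, rfl⟩
  exact h2 h3

theorem hon_finU (hp : p.Prime) (hζ : IsPrimitiveRoot ζ p) (L : LDs D Ω)
    (A : GS D Ω) (Z : Finset (Pl K)) (H : Type) [Group H] [Finite H] :
    {φ : Gal(Ω/K) →* H | Unz L Z φ ∧ IsPGroup p φ.range}.Finite := by
  refine Set.Finite.of_finite_image (f := fun φ : Gal(Ω/K) →* H =>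
    ((fun v : Z => φ (L.t v), fun i : Fin A.g => φ (A.a i)) : (Z → H) × (Fin A.g → H)))
    (Set.toFinite _) ?_
  rintro φ ⟨h1, h2⟩ φ' ⟨h3, h4⟩ h
  have h5 := congrArg Prod.fst h
  have h6 := congrArg Prod.snd h
  exact hon_eqU hp hζ L A Z φ φ' h1 h3 h2 h4 (fun v hv => congrFun h5 ⟨v, hv⟩) fun i =>
    congrFun h6 i

/-- the conditions on the inertia groups -/
theorem hon_inrE (hp : p.Prime) (hζ : IsPrimitiveRoot ζ p) (L : LDs D Ω)
    (E Z : Finset (Pl K)) {H : Type} [Group H] [Finite H] (φ : Gal(Ω/K) →* H) (h : HonE L E Z φ)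
    (hP : IsPGroup p φ.range) {v : Pl K} (hv : v ∉ D.S0) (hE : v ∉ E) :
    ∀ τ ∈ inr L v, φ τ ^ p = 1 ∧ (v ∉ Z → φ τ = 1) := by
  have h1 := H48.MF.ing_inr hp hζ L hv φ h.1 fun τ _ => by
    obtain ⟨k, hk⟩ := hP ⟨φ τ, τ, rfl⟩
    exact ⟨k, congrArg Subtype.val hk⟩
  exact fun τ hτ => ⟨h1.2.1 (h.2 v hv hE).1 τ hτ, fun hz => h1.2.2 ((h.2 v hv hE).2 hz) τ hτ⟩

theorem wordsU (hp : p.Prime) (hζ : IsPrimitiveRoot ζ p) (L : LDs D Ω) (A : GS D Ω) (M : ℕ)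
    (Z : Finset (Pl K)) (σ : Gal(Ω/K)) :
    ∃ w ∈ OnZ A Z, ∀ (H : Type) [Group H] [Finite H], IsPGroup p H → Nat.card H ≤ M →
      ∀ φ : Gal(Ω/K) →* H, Unz L Z φ → hat L A φ w = φ σ := by
  have hfin := hon_finU hp hζ L A Z (Equiv.Perm (Fin M))
  set I : Type := {φ : Gal(Ω/K) →* Equiv.Perm (Fin M) // Unz L Z φ ∧ IsPGroup p φ.range} with hI
  have hIf : Finite I := hfin.to_subtype
  set Φ : Gal(Ω/K) →* (I → Equiv.Perm (Fin M)) := MonoidHom.pi fun ψ : I => ψ.1 with hΦ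
  have h1 : Unz L Z Φ :=
    ⟨ft_pi _ fun ψ => ψ.2.1.1, fun v hv hz => funext fun ψ => ψ.2.1.2 v hv hz⟩
  have h2 : IsPGroup p Φ.range := pg_pi _ fun ψ => ψ.2.2
  have h3 := fraU hp hζ L A Z Φ h1 h2
  have h4 : Φ σ ∈ (OnZ A Z).map (hat L A Φ) := by
    rw [h3]
    exact ⟨σ, rfl⟩
  obtain ⟨w, hw, hw2⟩ := h4
  refine ⟨w, hw, fun H _ _ hH hM φ hφ => ?_⟩
  obtain ⟨j, hj⟩ := emb H hM
  have h5 : IsPGroup p φ.range := hH.to_subgroup _
  let ψ : I := ⟨j.comp φ, hφ.comp j, pg_range φ j h5⟩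
  have h6 : hat L A ψ.1 w = ψ.1 σ := by
    have h7 : ψ.1 = (Pi.evalMonoidHom _ ψ).comp Φ := rfl
    conv_lhs => rw [h7]
    rw [hat_comp, MonoidHom.comp_apply, hw2]
    rfl
  have h8 : hat L A ψ.1 w = j (hat L A φ w) := by
    change hat L A (j.comp φ) w = _
    rw [hat_comp]
    rfl
  apply hj
  rw [← h8, h6]
  rfl

omit [IsAlgClosure K Ω] in
/-- the virtual word of `σ` on the letters of `E` and `Z` -/
def wdE (L : LDs D Ω) (A : GS D Ω) (M : ℕ) (E Z : Finset (Pl K)) (σ : Gal(Ω/K)) : FW A :=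
  if h : ∃ w ∈ OnZ A (E ∪ Z), ∀ (H : Type) [Group H] [Finite H], IsPGroup p H → Nat.card H ≤ M →
    ∀ φ : Gal(Ω/K) →* H, Unz L (E ∪ Z) φ → hat L A φ w = φ σ then h.choose else 1

theorem wdE_mem (hp : p.Prime) (hζ : IsPrimitiveRoot ζ p) (L : LDs D Ω) (A : GS D Ω) (M : ℕ)
    (E Z : Finset (Pl K)) (σ : Gal(Ω/K)) : wdE L A M E Z σ ∈ OnZ A (E ∪ Z) := by
  have h := wordsU hp hζ L A M (E ∪ Z) σ
  unfold wdE
  rw [dif_pos h]
  exact h.choose_spec.1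

theorem wdE_specU (hp : p.Prime) (hζ : IsPrimitiveRoot ζ p) (L : LDs D Ω) (A : GS D Ω) (M : ℕ)
    (E Z : Finset (Pl K)) (σ : Gal(Ω/K)) (H : Type) [Group H] [Finite H] (hH : IsPGroup p H)
    (hM : Nat.card H ≤ M) (φ : Gal(Ω/K) →* H) (hφ : Unz L (E ∪ Z) φ) :
    hat L A φ (wdE L A M E Z σ) = φ σ := by
  have h := wordsU hp hζ L A M (E ∪ Z) σ
  unfold wdE
  rw [dif_pos h]
  exact h.choose_spec.2 H hH hM φ hφ

theorem wdE_spec (hp : p.Prime) (hζ : IsPrimitiveRoot ζ p) (L : LDs D Ω) (A : GS D Ω) (M : ℕ)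
    (E Z : Finset (Pl K)) (σ : Gal(Ω/K)) (H : Type) [Group H] [Finite H] (hH : IsPGroup p H)
    (hM : Nat.card H ≤ M) (φ : Gal(Ω/K) →* H) (hφ : HonE L E Z φ) :
    hat L A φ (wdE L A M E Z σ) = φ σ :=
  wdE_specU hp hζ L A M E Z σ H hH hM φ hφ.unz

end H77.WE
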