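import Pool.Agent.H77.WE.GlE

/-!
# H77-WE-GLU: good places over given places, uniformly

* `sim_cj`: the types at the conjugated places.
* `gl_famU`, `glU`: as `gl_famE`, `glE`, over given `L₀`, `Fr₀`: the good places are `cjL L₀ s`, `cjF Fr₀ s`; the constants do not depend on `L₀`.
-/

set_option autoImplicit false
set_option linter.dupNamespace false

open scoped NumberField Pointwise
open IsDedekindDomain
open scoped Classical

noncomputable section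

namespace H77.WE

open H63.MA H38.BB H38.BG H57.PC H57.BRA H77.WD H77.GL H57.AN

variable {K : Type} [Field K] [NumberField K] {Ω : Type} [Field Ω] [Algebra K Ω] [IsAlgClosure K Ω]
  {p : ℕ} {ζ : K}

omit [IsAlgClosure K Ω] in
/-- the conjugated places: `SimL L (cjL L s)` (`H35/UB/Fin`) -/
theorem sim_cj {D : RD0 K p ζ} (L : LDs D Ω) (s : Pl K → Gal(Ω/K)) :
    ∀ v, v ∉ D.S0 → ∃ σ : Gal(Ω/K), (cjL L s).t v = σ * L.t v * σ⁻¹ ∧
      ∀ τ, τ ∈ inr (cjL L s) v ↔ σ⁻¹ * τ * σ ∈ inr L v := by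
  intro v hv
  refine ⟨s v, cj_t L s hv, fun τ => ⟨fun h => ?_, fun h => ?_⟩⟩
  · unfold inr at h ⊢
    rw [dif_pos hv] at h ⊢
    intro x
    have h1 : τ • (s v • x) - s v • x ∈ s v • (L.ld v hv).P := h (s v • x)
    rw [Ideal.mem_pointwise_smul_iff_inv_smul_mem, smul_sub, inv_smul_smul] at h1
    rw [mul_smul, mul_smul]
    exact h1
  · have h1 := cj_inr L s hv _ h
    have h2 : s v * ((s v)⁻¹ * τ * s v) * (s v)⁻¹ = τ := by group
    rwa [h2] at h1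

theorem pl_cntU (hp : p.Prime) (hζ : IsPrimitiveRoot ζ p) {D : RD0 K p ζ}
    (A : GS D Ω) (C : ℕ) (H : Type) [Group H] [Finite H] :
    ∃ c : ℕ, ∀ (L : LDs D Ω) (Y : ℝ), 2 ≤ Y → ∃ R : Finset (Finset (Pl K) × (Gal(Ω/K) →* H)),
      (R.card : ℝ) ≤ Y ^ c ∧ ∀ (T : Finset (Pl K)) (φ : Gal(Ω/K) →* H),
        ∏ v ∈ T, (nm v : ℝ) ≤ Y ^ C → Unz L T φ → IsPGroup p φ.range → (T, φ) ∈ R := by
  obtain ⟨c₁, hc₁, hAF⟩ := af_card K
  obtain ⟨k, hk⟩ := pow_unbounded_of_one_lt (Nat.card H : ℝ) (one_lt_two)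
  obtain ⟨k₂, hk₂⟩ := pow_unbounded_of_one_lt (c₁ * (Nat.card H : ℝ) ^ A.g) (one_lt_two)
  refine ⟨k₂ + C + C * k, fun L Y hY => ?_⟩
  have hY1 : 1 ≤ Y := by linarith
  have hYC : 1 ≤ Y ^ C := one_le_pow₀ hY1
  refine ⟨(AF K (Y ^ C)).biUnion fun T =>
    (hon_finU hp hζ L A T H).toFinset.image fun φ => (T, φ), ?_, fun T φ h1 h2 h3 => ?_⟩
  · have h1 : ∀ T ∈ AF K (Y ^ C), (((hon_finU hp hζ L A T H).toFinset.image
        fun φ => (T, φ)).card : ℝ) ≤ (Nat.card H : ℝ) ^ A.g * (Y ^ (C * k)) := by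
      intro T hT
      have h2 : (((hon_finU hp hζ L A T H).toFinset.image fun φ => (T, φ)).card : ℝ) ≤
          (Nat.card H : ℝ) ^ (T.card + A.g) := by
        exact_mod_cast Finset.card_image_le.trans (unz_cnt hp hζ L A T H)
      have h3 : (2 : ℝ) ^ T.card ≤ Y ^ C := (two_pow_le_nr T).trans (mem_AF.1 hT)
      have h4 : (Nat.card H : ℝ) ^ T.card ≤ Y ^ (C * k) := by
        calc (Nat.card H : ℝ) ^ T.card ≤ (2 ^ k) ^ T.card :=
              pow_le_pow_left₀ (Nat.cast_nonneg _) hk.le _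
          _ = (2 ^ T.card) ^ k := by rw [← pow_mul, ← pow_mul, mul_comm]
          _ ≤ (Y ^ C) ^ k := pow_le_pow_left₀ (by positivity) h3 _
          _ = _ := by rw [← pow_mul]
      refine h2.trans ?_
      rw [pow_add, mul_comm]
      exact mul_le_mul_of_nonneg_left h4 (by positivity)
    have h5 : (((AF K (Y ^ C)).biUnion fun T =>
        (hon_finU hp hζ L A T H).toFinset.image fun φ => (T, φ)).card : ℝ) ≤
        (AF K (Y ^ C)).card * ((Nat.card H : ℝ) ^ A.g * (Y ^ (C * k))) := by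
      rw [← nsmul_eq_mul, ← Finset.sum_const]
      refine le_trans ?_ (Finset.sum_le_sum h1)
      exact_mod_cast Finset.card_biUnion_le
    refine h5.trans ?_
    have h6 := hAF (Y ^ C) hYC
    calc _ ≤ c₁ * Y ^ C * ((Nat.card H : ℝ) ^ A.g * (Y ^ (C * k))) :=
          mul_le_mul_of_nonneg_right h6 (by positivity)
      _ = (c₁ * (Nat.card H : ℝ) ^ A.g) * (Y ^ C * Y ^ (C * k)) := by ring
      _ ≤ Y ^ k₂ * (Y ^ C * Y ^ (C * k)) := by
          refine mul_le_mul_of_nonneg_right (hk₂.le.trans ?_) (by positivity)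
          exact pow_le_pow_left₀ (by norm_num) hY _
      _ = _ := by rw [pow_add, pow_add]; ring
  · rw [Finset.mem_biUnion]
    refine ⟨T, ?_, Finset.mem_image.2 ⟨φ, ?_, rfl⟩⟩
    · rw [mem_AF]
      exact h1
    · rw [Set.Finite.mem_toFinset]
      exact ⟨h2, h3⟩

theorem gl_famU (hp : p.Prime) (hζ : IsPrimitiveRoot ζ p) (D : RD0 K p ζ)
    (M C : ℕ) : ∃ (C' : ℕ) (Y₀ : ℝ), ∀ Y : ℝ, Y₀ ≤ Y → ∀ 𝒜 : Finset (Finset (Pl K)),
      (𝒜.card : ℝ) ≤ Y ^ C → ∀ (L₀ : LDs D Ω) (Fr₀ : FR L₀), ∃ s : Pl K → Gal(Ω/K),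
      ∀ (H : Type) [Group H] [Finite H],
        IsPGroup p H → Nat.card H ≤ M → ∀ (φ : Gal(Ω/K) →* H) (T : Finset (Pl K)),
          Unz (cjL L₀ s) T φ →
          ∏ v ∈ T, (nm v : ℝ) ≤ Y ^ C → ∀ h : H → ℂ, (∀ y, ‖h y‖ ≤ 1) → ∀ A ∈ 𝒜,
            ‖∑ w ∈ A.filter (fun w => w ∉ D.S0 ∧ w ∉ T),
              (h (φ ((cjF Fr₀ s).F w)) - av φ h (φ ((cjF Fr₀ s).F w)))‖ ≤
                C' * (A.card : ℝ) ^ (3 / 4 : ℝ) + Real.log Y ^ C' := by
  obtain ⟨A₀⟩ := gs_exists hp hζ D Ω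
  obtain ⟨c, hc⟩ := pl_cntU hp hζ A₀ C (Equiv.Perm (Fin M))
  obtain ⟨k, hk⟩ := pow_unbounded_of_one_lt (Nat.card (Equiv.Perm (Fin M)) : ℝ) (one_lt_two)
  refine ⟨M + 4, Real.exp (2 * ((1 + c + k + C : ℕ) : ℝ) + 2), fun Y hY 𝒜 h𝒜 L₀ Fr₀ => ?_⟩
  have hY0 : 0 < Y := (Real.exp_pos _).trans_le hY
  have hl : 2 * ((1 + c + k + C : ℕ) : ℝ) + 2 ≤ Real.log Y := (Real.le_log_iff_exp_le hY0).2 hY
  have hm : (0 : ℝ) ≤ ((1 + c + k + C : ℕ) : ℝ) := Nat.cast_nonneg _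
  have hl2 : 2 ≤ Real.log Y := by linarith
  have hY2 : 2 ≤ Y := by
    have h1 := Real.add_one_le_exp (2 * ((1 + c + k + C : ℕ) : ℝ) + 2)
    linarith
  obtain ⟨R, hR1, hR2⟩ := hc L₀ Y hY2
  obtain ⟨s, hs⟩ := gl_ch Fr₀ (Equiv.Perm (Fin M)) R 𝒜 (Real.log Y ^ 4) (by
    intro a ha
    refine lt_of_le_of_lt ?_ (gl_num (1 + c + k + C) Y hY a ha)
    refine mul_le_mul_of_nonneg_right ?_ (Real.exp_pos _).le
    have h1 : (Nat.card (Equiv.Perm (Fin M)) : ℝ) ≤ Y ^ k :=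
      hk.le.trans (pow_le_pow_left₀ (by norm_num) hY2 _)
    calc 2 * ((R.card : ℝ) * Nat.card (Equiv.Perm (Fin M)) * 𝒜.card) ≤
        Y * (Y ^ c * Y ^ k * Y ^ C) := by
          refine mul_le_mul hY2 ?_ (by positivity) (by positivity)
          refine mul_le_mul ?_ h𝒜 (by positivity) (by positivity)
          exact mul_le_mul hR1 h1 (by positivity) (by positivity)
      _ = Y ^ (1 + c + k + C) := by rw [pow_add, pow_add, pow_add, pow_one]; ring)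
  refine ⟨s, fun H _ _ hH hM φ T hhon hT h hh A hA => ?_⟩
  have hHf : Fintype H := Fintype.ofFinite H
  obtain ⟨j, hj⟩ := emb H hM
  rw [unz_cj] at hhon
  obtain ⟨Γ, _, _, q, ψ, hq, hψ, hb⟩ := hs T (j.comp φ)
    (hR2 T _ hT (hhon.comp j) (pg_range φ j (hH.to_subgroup _))) A hA
  obtain ⟨θ, hθ, hθ2⟩ := fac_ex q hq ψ j hj φ hψ
  have hF : ∀ w, φ ((cjF Fr₀ s).F w) = φ (s w) * φ (Fr₀.F w) * (φ (s w))⁻¹ := by
    intro w
    rw [← map_inv, ← map_mul, ← map_mul]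
    rfl
  have h1 : ∑ w ∈ A.filter (fun w => w ∉ D.S0 ∧ w ∉ T),
      (h (φ ((cjF Fr₀ s).F w)) - av φ h (φ ((cjF Fr₀ s).F w))) =
      ∑ y : H, h y * ((∑ w ∈ A.filter (fun w => w ∉ D.S0 ∧ w ∉ T),
        cind (fun g : Γ => ψ g * (j.comp φ) (Fr₀.F w) * (ψ g)⁻¹) (j y) (q (s w)) : ℝ) : ℂ) := by
    have e1 : ∀ w, h (φ ((cjF Fr₀ s).F w)) - av φ h (φ ((cjF Fr₀ s).F w)) =
        ∑ y : H, h y *
          (cind (fun g : Γ => θ g * φ (Fr₀.F w) * (θ g)⁻¹) y (q (s w)) : ℂ) := by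
      intro w
      rw [hF w]
      exact dif φ q hq θ hθ h (φ (Fr₀.F w)) (s w)
    rw [Finset.sum_congr rfl fun w _ => e1 w, Finset.sum_comm]
    refine Finset.sum_congr rfl fun y _ => ?_
    rw [← Finset.mul_sum]
    push_cast
    congr 1
    refine Finset.sum_congr rfl fun w _ => ?_
    rw [cind_inj ψ θ j hj hθ2]
    rfl
  rw [h1]
  have hMc : (Fintype.card H : ℝ) ≤ M := by
    rw [← Nat.card_eq_fintype_card]
    exact_mod_cast hM
  have hA0 : (0 : ℝ) ≤ (A.card : ℝ) ^ (3 / 4 : ℝ) := Real.rpow_nonneg (Nat.cast_nonneg _) _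
  have hmax : max (Real.log Y ^ 4) 0 = Real.log Y ^ 4 := max_eq_left (by positivity)
  have h2 : ‖∑ y : H, h y * ((∑ w ∈ A.filter (fun w => w ∉ D.S0 ∧ w ∉ T),
        cind (fun g : Γ => ψ g * (j.comp φ) (Fr₀.F w) * (ψ g)⁻¹) (j y) (q (s w)) : ℝ) : ℂ)‖ ≤
      M * ((A.card : ℝ) ^ (3 / 4 : ℝ) + Real.log Y ^ 4) := by
    refine (norm_sum_le _ _).trans ?_
    refine (Finset.sum_le_sum (g := fun _ => (A.card : ℝ) ^ (3 / 4 : ℝ) + Real.log Y ^ 4)
      fun y _ => ?_).trans ?_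
    · rw [norm_mul, Complex.norm_real, Real.norm_eq_abs]
      have h3 := hb (j y)
      rw [hmax] at h3
      calc _ ≤ 1 * _ := mul_le_mul_of_nonneg_right (hh y) (abs_nonneg _)
        _ = _ := one_mul _
        _ ≤ _ := h3
    · rw [Finset.sum_const, nsmul_eq_mul, Finset.card_univ]
      exact mul_le_mul_of_nonneg_right hMc (by positivity)
  refine h2.trans ?_
  have h3 : (M : ℝ) ≤ Real.log Y ^ M := by
    have h4 : (M : ℝ) ≤ 2 ^ M := by exact_mod_cast (Nat.lt_two_pow_self).le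
    exact h4.trans (pow_le_pow_left₀ (by norm_num) hl2 _)
  have h5 : (M : ℝ) * Real.log Y ^ 4 ≤ Real.log Y ^ (M + 4) := by
    rw [pow_add]
    exact mul_le_mul_of_nonneg_right h3 (by positivity)
  push_cast
  nlinarith

theorem glU (hp : p.Prime) (hζ : IsPrimitiveRoot ζ p) (D : RD0 K p ζ)
    (M C : ℕ) : ∃ (C' : ℕ) (Y₀ : ℝ), ∀ Y : ℝ, Y₀ ≤ Y → ∀ (L₀ : LDs D Ω) (Fr₀ : FR L₀),
      ∃ s : Pl K → Gal(Ω/K),
      ∀ (H : Type) [Group H] [Finite H], IsPGroup p H → Nat.card H ≤ M →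
        ∀ (φ : Gal(Ω/K) →* H) (T : Finset (Pl K)), Unz (cjL L₀ s) T φ →
          ∏ v ∈ T, (nm v : ℝ) ≤ Y ^ C → ∀ h : H → ℂ, (∀ y, ‖h y‖ ≤ 1) →
            ∀ (x' x : ℝ) (b : Bool), 0 ≤ x → x ≤ Y ^ C →
              ‖∑ w ∈ (PI K x' x b).filter (fun w => w ∉ D.S0 ∧ w ∉ T),
                (h (φ ((cjF Fr₀ s).F w)) - av φ h (φ ((cjF Fr₀ s).F w)))‖ ≤
                  C' * x ^ (3 / 4 : ℝ) + Real.log Y ^ C' := by
  obtain ⟨C₁, Y₁, hgl⟩ := gl_famU (Ω := Ω) hp hζ D M (2 * C + 3)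
  obtain ⟨n, hn⟩ : ∃ n : ℕ, n = Module.finrank ℚ K := ⟨_, rfl⟩
  refine ⟨C₁ * (n + 1) + C₁, max Y₁ 3, fun Y hY L₀ Fr₀ => ?_⟩
  have hY1 : Y₁ ≤ Y := (le_max_left _ _).trans hY
  have hY3 : 3 ≤ Y := (le_max_right _ _).trans hY
  have hYC : 1 ≤ Y ^ C := one_le_pow₀ (by linarith)
  have hlog : 1 ≤ Real.log Y := by
    rw [Real.le_log_iff_exp_le (by linarith)]
    exact Real.exp_one_lt_three.le.trans hY3
  obtain ⟨m, hm⟩ : ∃ m : ℕ, m = ⌊Y ^ C⌋₊ + 1 := ⟨_, rfl⟩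
  obtain ⟨𝒜, h𝒜⟩ : ∃ 𝒜 : Finset (Finset (Pl K)), 𝒜 =
    ((Finset.range m ×ˢ Finset.range m) ×ˢ (Finset.univ : Finset Bool)).image
      fun z => PI K (z.1.1 : ℝ) (z.1.2 : ℝ) z.2 := ⟨_, rfl⟩
  have hm2 : (m : ℝ) ≤ 2 * Y ^ C := by
    rw [hm]
    push_cast
    have := Nat.floor_le (by linarith : (0 : ℝ) ≤ Y ^ C)
    linarith
  have hcard : (𝒜.card : ℝ) ≤ Y ^ (2 * C + 3) := by
    have h1 : 𝒜.card ≤ m * m * 2 := by
      rw [h𝒜]
      refine Finset.card_image_le.trans (le_of_eq ?_)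
      rw [Finset.card_product, Finset.card_product, Finset.card_range, Finset.card_univ,
        Fintype.card_bool]
    calc (𝒜.card : ℝ) ≤ ((m * m * 2 : ℕ) : ℝ) := by exact_mod_cast h1
      _ = (m : ℝ) * m * 2 := by push_cast; ring
      _ ≤ (2 * Y ^ C) * (2 * Y ^ C) * 2 := by
          refine mul_le_mul_of_nonneg_right ?_ (by norm_num)
          exact mul_le_mul hm2 hm2 (Nat.cast_nonneg _) (by positivity)
      _ = 8 * (Y ^ C * Y ^ C) := by ring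
      _ ≤ Y ^ 3 * (Y ^ C * Y ^ C) := by
          refine mul_le_mul_of_nonneg_right ?_ (by positivity)
          calc (8 : ℝ) ≤ 3 ^ 3 := by norm_num
            _ ≤ Y ^ 3 := pow_le_pow_left₀ (by norm_num) hY3 _
      _ = _ := by ring
  obtain ⟨s, hL⟩ := hgl Y hY1 𝒜 hcard L₀ Fr₀
  refine ⟨s, fun H _ _ hH hM φ T hT hTn h hh x' x b hx0 hx => ?_⟩
  have hlog0 : (0 : ℝ) ≤ Real.log Y := by linarith
  have hx34 : 0 ≤ x ^ (3 / 4 : ℝ) := Real.rpow_nonneg hx0 _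
  have hTn' : ∏ v ∈ T, (nm v : ℝ) ≤ Y ^ (2 * C + 3) :=
    hTn.trans (pow_le_pow_right₀ (by linarith) (by omega))
  -- the set is in the family
  have hmem : PI K x' x b = ∅ ∨ PI K x' x b ∈ 𝒜 := by
    by_cases hxx : x' ≤ x
    · right
      rw [h𝒜, Finset.mem_image]
      refine ⟨((⌊x'⌋₊, ⌊x⌋₊), b), ?_, ?_⟩
      · rw [Finset.mem_product, Finset.mem_product, Finset.mem_range, Finset.mem_range, hm]
        have h1 := Nat.floor_le_floor (hxx.trans hx)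
        have h2 := Nat.floor_le_floor hx
        refine ⟨⟨?_, ?_⟩, Finset.mem_univ _⟩
        · change ⌊x'⌋₊ < ⌊Y ^ C⌋₊ + 1
          omega
        · change ⌊x⌋₊ < ⌊Y ^ C⌋₊ + 1
          omega
      · ext w
        unfold PI
        rw [Finset.mem_filter, Finset.mem_filter, mem_PB, mem_PB]
        have h1 : nm w ≠ 0 := (zero_lt_one.trans (one_lt_nm w)).ne'
        refine and_congr ?_ (and_congr ?_ Iff.rfl)
        · change (nm w : ℝ) ≤ ((⌊x⌋₊ : ℕ) : ℝ) ↔ _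
          rw [Nat.cast_le, Nat.le_floor_iff hx0]
        · change ((⌊x'⌋₊ : ℕ) : ℝ) < (nm w : ℝ) ↔ _
          rw [Nat.cast_lt, Nat.floor_lt' h1]
    · left
      rw [Finset.eq_empty_iff_forall_notMem]
      intro w hw
      unfold PI at hw
      rw [Finset.mem_filter, mem_PB] at hw
      exact hxx (hw.2.1.le.trans hw.1)
  have hrhs : 0 ≤ ((C₁ * (n + 1) + C₁ : ℕ) : ℝ) * x ^ (3 / 4 : ℝ) +
      Real.log Y ^ (C₁ * (n + 1) + C₁) := by positivity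
  rcases hmem with h0 | h0
  · rw [h0, Finset.filter_empty, Finset.sum_empty, norm_zero]
    exact hrhs
  · refine (hL H hH hM φ T hT hTn' h hh _ h0).trans ?_
    have h1 : ((PI K x' x b).card : ℝ) ≤ (n + 1) * x := by
      have h2 : ((PI K x' x b).card : ℝ) ≤ ((PB K x).card : ℝ) := by
        exact_mod_cast Finset.card_filter_le _ _
      have h3 := H1.PN.pb_card (L := K) x hx0
      rw [← hn] at h3
      refine (h2.trans h3).trans ?_
      exact mul_le_mul_of_nonneg_right (by linarith) hx0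
    have h4 : ((PI K x' x b).card : ℝ) ^ (3 / 4 : ℝ) ≤ (n + 1) * x ^ (3 / 4 : ℝ) := by
      refine (Real.rpow_le_rpow (Nat.cast_nonneg _) h1 (by norm_num)).trans ?_
      rw [Real.mul_rpow (by positivity) hx0]
      refine mul_le_mul_of_nonneg_right ?_ hx34
      calc ((n : ℝ) + 1) ^ (3 / 4 : ℝ) ≤ ((n : ℝ) + 1) ^ (1 : ℝ) := by
            refine Real.rpow_le_rpow_of_exponent_le ?_ (by norm_num)
            have : (0 : ℝ) ≤ n := Nat.cast_nonneg _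
            linarith
        _ = _ := Real.rpow_one _
    have h5 : Real.log Y ^ C₁ ≤ Real.log Y ^ (C₁ * (n + 1) + C₁) :=
      pow_le_pow_right₀ hlog (by omega)
    have h6 : (C₁ : ℝ) * ((PI K x' x b).card : ℝ) ^ (3 / 4 : ℝ) ≤
        ((C₁ * (n + 1) + C₁ : ℕ) : ℝ) * x ^ (3 / 4 : ℝ) := by
      refine (mul_le_mul_of_nonneg_left h4 (Nat.cast_nonneg _)).trans ?_
      push_cast
      have : (0 : ℝ) ≤ (C₁ : ℝ) * x ^ (3 / 4 : ℝ) := mul_nonneg (Nat.cast_nonneg _) hx34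
      nlinarith
    linarith

end H77.WE
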