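import Pool.Agent.H77.WE.Com
import Pool.Agent.H63.MC.CDa
import Pool.Agent.H89.BRG.Qd

/-!
# H77-WE-DCG: the image of a tame decomposition group is generated by the inertia generator and a Frobenius element

* `dc_fr`: on a finite Galois extension an element of the decomposition group is congruent to a power of the Frobenius map.
* `dc_gen`: `σ` in the decomposition group of `L.P`, `φ` of finite type with values in a `p`-group: `φ σ = φ F ^ k * φ t ^ j`.
-/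

set_option autoImplicit false
set_option linter.dupNamespace false

open scoped NumberField Pointwise
open IsDedekindDomain

noncomputable section

namespace H77.WE

open H63.MA H38.BB H38.BG H57.PC H57.BRA H77.WD

variable {K : Type} [Field K] [NumberField K] {Ω : Type} [Field Ω] [Algebra K Ω] [IsAlgClosure K Ω]
  {p : ℕ} {ζ : K}

theorem dc_fr {v : Pl K} (P : Ideal (𝓞 Ω)) (hP : P.IsPrime) (hv : P.under (𝓞 K) = v.asIdeal)
    (M : IntermediateField K Ω) [FiniteDimensional K M] [IsGalois K M] [NumberField M]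
    (σ : Gal(Ω/K)) (hσ : σ ∈ dec (K := K) P) : ∃ k : ℕ, ∀ x : 𝓞 M,
      σ • (algebraMap (𝓞 M) (𝓞 Ω) x) - (algebraMap (𝓞 M) (𝓞 Ω) x) ^ (nm v ^ k) ∈ P := by
  have hPM : (P.under (𝓞 M)).IsPrime := inferInstance
  have hMv : (P.under (𝓞 M)).under (𝓞 K) = v.asIdeal := by rw [Ideal.under_under, hv]
  have hlo : (P.under (𝓞 M)).LiesOver v.asIdeal := ⟨hMv.symm⟩
  have hvm : v.asIdeal.IsMaximal := v.isMaximal
  have hPm : (P.under (𝓞 M)).IsMaximal := Ideal.IsMaximal.of_liesOver_isMaximal _ v.asIdeal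
  have hPb : P.under (𝓞 M) ≠ ⊥ := by
    intro h
    rw [h] at hMv
    apply v.ne_bot
    rw [← hMv]
    exact Ideal.under_bot _ _
  let _ : Field (𝓞 K ⧸ v.asIdeal) := Ideal.Quotient.field _
  let _ : Field (𝓞 M ⧸ P.under (𝓞 M)) := Ideal.Quotient.field _
  have hfin : Finite (𝓞 K ⧸ v.asIdeal) := Ideal.finiteQuotientOfFreeOfNeBot _ v.ne_bot
  let _ : Fintype (𝓞 K ⧸ v.asIdeal) := Fintype.ofFinite _
  have hfin2 : Finite (𝓞 M ⧸ P.under (𝓞 M)) := Ideal.finiteQuotientOfFreeOfNeBot _ hPb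
  set δ : Gal(M/K) := AlgEquiv.restrictNormal σ M with hδ
  have hδσ : ∀ x : 𝓞 M, algebraMap (𝓞 M) (𝓞 Ω) (δ • x) = σ • (algebraMap (𝓞 M) (𝓞 Ω) x) := by
    intro x
    apply NumberField.RingOfIntegers.ext
    exact AlgEquiv.restrictNormal_commutes σ M (x : M)
  have hst : δ ∈ MulAction.stabilizer Gal(M/K) (P.under (𝓞 M)) := by
    rw [MulAction.mem_stabilizer_iff]
    ext x
    rw [Ideal.mem_pointwise_smul_iff_inv_smul_mem, Ideal.mem_comap, Ideal.mem_comap]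
    have h1 : algebraMap (𝓞 M) (𝓞 Ω) x = σ • (algebraMap (𝓞 M) (𝓞 Ω) (δ⁻¹ • x)) := by
      rw [← hδσ, smul_inv_smul]
    rw [h1]
    exact (hσ _).symm
  obtain ⟨⟨k, hk0⟩, hk⟩ := (FiniteField.bijective_frobeniusAlgEquivOfAlgebraic_pow
    (𝓞 K ⧸ v.asIdeal) (𝓞 M ⧸ P.under (𝓞 M))).2
      (Ideal.Quotient.stabilizerHom (P.under (𝓞 M)) v.asIdeal Gal(M/K) ⟨δ, hst⟩)
  refine ⟨k, fun x => ?_⟩
  have h1 := DFunLike.congr_fun hk (Ideal.Quotient.mk (P.under (𝓞 M)) x)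
  have h2 : Fintype.card (𝓞 K ⧸ v.asIdeal) = nm v := by
    rw [← symb_card v, Nat.card_eq_fintype_card]
  have h3 : ∀ (n : ℕ) (y : 𝓞 M ⧸ P.under (𝓞 M)),
      ((FiniteField.frobeniusAlgEquivOfAlgebraic (𝓞 K ⧸ v.asIdeal) (𝓞 M ⧸ P.under (𝓞 M))) ^ n) y =
        y ^ (nm v ^ n) := by
    intro n
    induction n with
    | zero =>
      intro y
      rw [pow_zero, pow_zero, pow_one]
      rfl
    | succ n ih =>
      intro y
      rw [pow_succ, AlgEquiv.mul_apply, ih]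
      have h4 : (FiniteField.frobeniusAlgEquivOfAlgebraic (𝓞 K ⧸ v.asIdeal)
          (𝓞 M ⧸ P.under (𝓞 M))) y = y ^ nm v := by
        rw [← h2]
        rfl
      rw [h4, ← pow_mul, ← pow_succ']
  have h5 : (Ideal.Quotient.mk (P.under (𝓞 M)) x) ^ (nm v ^ k) =
      Ideal.Quotient.mk (P.under (𝓞 M)) (δ • x) := by
    rw [← h3 k]
    exact h1
  rw [← map_pow, Ideal.Quotient.eq] at h5
  have h6 : algebraMap (𝓞 M) (𝓞 Ω) (x ^ (nm v ^ k) - δ • x) ∈ P := h5
  rw [map_sub, map_pow, hδσ] at h6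
  rw [← neg_sub]
  exact P.neg_mem h6

/-- the image of the decomposition group -/
theorem dc_gen (hp : p.Prime) (hζ : IsPrimitiveRoot ζ p) {D : RD0 K p ζ} (L : LDs D Ω) {v : Pl K}
    (hv : v ∉ D.S0) {F : Gal(Ω/K)} (hF : ∀ x : 𝓞 Ω, F • x - x ^ nm v ∈ (L.ld v hv).P)
    {H : Type} [Group H] [Finite H] (φ : Gal(Ω/K) →* H) (hφ : H38.ML.FT φ)
    (hP : IsPGroup p φ.range) (σ : Gal(Ω/K)) (hσ : σ ∈ dec (K := K) (L.ld v hv).P) :
    ∃ (k : ℕ) (j : ℤ), φ σ = φ F ^ k * φ (L.t v) ^ j := by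
  have hgal : IsGalois K Ω := IsAlgClosure.isGalois K Ω
  obtain ⟨E, hE, hle⟩ := hφ
  obtain ⟨M, hM⟩ : ∃ M : IntermediateField K Ω, M = IntermediateField.normalClosure K E Ω :=
    ⟨_, rfl⟩
  have hEM : E ≤ M := by
    rw [hM]
    exact IntermediateField.le_normalClosure E
  have hfd : FiniteDimensional K M := by
    rw [hM]
    infer_instance
  have hnum : NumberField M := NumberField.of_module_finite K M
  have hnor : Normal K M := by
    rw [hM]
    infer_instance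
  have hgM : IsGalois K M := { to_normal := hnor, to_isSeparable := inferInstance }
  set P := (L.ld v hv).P with hPdef
  obtain ⟨k, hk⟩ := dc_fr P (L.ld v hv).prime (L.ld v hv).under M σ hσ
  have hnm : 0 < nm v := lt_trans Nat.zero_lt_one (one_lt_nm v)
  have hFP : ∀ y ∈ P, F • y ∈ P := by
    intro y hy
    have h1 := P.add_mem (hF y) (P.pow_mem_of_mem hy (nm v) hnm)
    rwa [sub_add_cancel] at h1
  have hpow : ∀ (k : ℕ) (x : 𝓞 Ω), (F ^ k) • x - x ^ (nm v ^ k) ∈ P := by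
    intro k
    induction k with
    | zero =>
      intro x
      rw [pow_zero, pow_zero, one_smul, pow_one, sub_self]
      exact P.zero_mem
    | succ k ih =>
      intro x
      have h1 : (F ^ (k + 1)) • x - x ^ (nm v ^ (k + 1)) =
          F • ((F ^ k) • x - x ^ (nm v ^ k)) +
            (F • (x ^ (nm v ^ k)) - (x ^ (nm v ^ k)) ^ nm v) := by
        rw [smul_sub, pow_succ' F, mul_smul, ← pow_mul, ← pow_succ]
        ring
      rw [h1]
      exact P.add_mem (hFP _ (ih x)) (hF _)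
  -- the element of the inertia group on `M`
  set ρ : Gal(Ω/K) := (F ^ k)⁻¹ * σ with hρ
  have hin : ∀ x : 𝓞 M, ρ • (algebraMap (𝓞 M) (𝓞 Ω) x) - algebraMap (𝓞 M) (𝓞 Ω) x ∈ P := by
    intro x
    set y : 𝓞 Ω := ρ • (algebraMap (𝓞 M) (𝓞 Ω) x) - algebraMap (𝓞 M) (𝓞 Ω) x with hy
    have h1 : (F ^ k) • y = σ • (algebraMap (𝓞 M) (𝓞 Ω) x) -
        (F ^ k) • (algebraMap (𝓞 M) (𝓞 Ω) x) := by
      rw [hy, smul_sub, ← mul_smul, hρ, mul_inv_cancel_left]
    have h2 : (F ^ k) • y ∈ P := by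
      rw [h1]
      have h3 := P.sub_mem (hk x) (hpow k (algebraMap (𝓞 M) (𝓞 Ω) x))
      rwa [sub_sub_sub_cancel_right] at h3
    have h3 : y ^ (nm v ^ k) ∈ P := by
      have h4 := P.sub_mem h2 (hpow k y)
      rwa [sub_sub_cancel] at h4
    exact (L.ld v hv).prime.mem_of_pow_mem _ h3
  set δ : Gal(M/K) := AlgEquiv.restrictNormal ρ M with hδ
  have hδρ : ∀ x : M, ((δ x : M) : Ω) = ρ (x : Ω) := fun x =>
    AlgEquiv.restrictNormal_commutes ρ M x
  obtain ⟨τ, hτ, hτM⟩ := CDa_lift M P (L.ld v hv).prime δ (by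
    intro x
    rw [Ideal.mem_comap, map_sub]
    have h1 : algebraMap (𝓞 M) (𝓞 Ω) (δ • x) = ρ • (algebraMap (𝓞 M) (𝓞 Ω) x) := by
      apply NumberField.RingOfIntegers.ext
      exact hδρ x
    rw [h1]
    exact hin x)
  have hφτ : φ τ = φ ρ := by
    have h1 : τ⁻¹ * ρ ∈ E.fixingSubgroup := by
      rw [IntermediateField.mem_fixingSubgroup_iff]
      intro x hx
      have h2 : ρ x = τ x := by
        rw [← hδρ ⟨x, hEM hx⟩, ← hτM ⟨x, hEM hx⟩]
      rw [AlgEquiv.mul_apply, h2]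
      exact AlgEquiv.symm_apply_apply τ x
    have h2 := MonoidHom.mem_ker.1 (hle h1)
    rw [map_mul, map_inv] at h2
    exact inv_mul_eq_one.1 h2
  have hinr : τ ∈ inr L v := by
    unfold inr
    rw [dif_pos hv]
    exact hτ
  have h1 := (H48.MF.ing_inr hp hζ L hv φ ⟨E, hE, hle⟩ fun τ _ => by
    obtain ⟨k, hk⟩ := hP ⟨φ τ, τ, rfl⟩
    exact ⟨k, congrArg Subtype.val hk⟩).1 τ hinr
  obtain ⟨j, hj⟩ := Subgroup.mem_zpowers_iff.1 h1
  refine ⟨k, j, ?_⟩
  rw [hj, hφτ, hρ, map_mul, map_inv, map_pow, mul_inv_cancel_left]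

end H77.WE
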