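import Pool.Agent.H77.WE.Defs
import Pool.Agent.H57.BRA.Fro

/-!
# H77-WE-COM: Frobenius elements commute with the inertia generators, inertia of order dividing p ^ m

`K` contains the roots of unity of order `p ^ m`.
* `comm_m`: as `com2` (H57/BRA/Fro.lean) with `p ^ m` in place of `p ^ 2`. `frm`: for `Fr : FR L`. `frm_card`: for `p`-groups of order at most `p ^ m`.
-/

set_option autoImplicit false
set_option linter.dupNamespace false

open scoped NumberField Pointwise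
open IsDedekindDomain

noncomputable section

namespace H77.WE

open H63.MA H38.BB H38.BG H57.PC H57.BRA H77.WD

variable {K : Type} [Field K] [NumberField K] {Ω : Type} [Field Ω] [Algebra K Ω] [IsAlgClosure K Ω]
  {p : ℕ} {ζ : K}

theorem comm_m (hp : p.Prime) (hζ : IsPrimitiveRoot ζ p) {m : ℕ} {z : K}
    (hz : IsPrimitiveRoot z (p ^ (m + 1))) {v : Pl K}
    (hv : ¬ Above p v) {π : Kˣ} (hπ : ord v π = 1) (L : LD p ζ Ω v π) {F : Gal(Ω/K)}
    (hF : ∀ x : 𝓞 Ω, F • x - x ^ nm v ∈ L.P) {G : Type} [Group G] [Finite G]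
    (φ : Gal(Ω/K) →* G) (hφ : H38.ML.FT φ)
    (he : ∀ τ ∈ L.P.inertia Gal(Ω/K), φ τ ^ (p ^ (m + 1)) = 1) :
    φ F * φ L.t = φ L.t * φ F := by
  have hp0 : NeZero p := ⟨hp.ne_zero⟩
  have hpf : Fact p.Prime := ⟨hp⟩
  have hN0 : NeZero (p ^ (m + 1)) := ⟨pow_ne_zero _ hp.ne_zero⟩
  have hcl : IsAlgClosed Ω := IsAlgClosure.isAlgClosed K
  obtain ⟨B, hB⟩ := IsAlgClosed.exists_pow_nat_eq L.w (pow_pos hp.pos m)
  have hw0 : L.w ≠ 0 := gkum_ne hp π L.w L.hw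
  have hB0 : B ≠ 0 := by
    intro h
    rw [h, zero_pow (pow_ne_zero _ hp.ne_zero)] at hB
    exact hw0 hB.symm
  have hB2 : B ^ (p ^ (m + 1)) = algebraMap K Ω (π : K) := by
    rw [pow_succ, pow_mul, hB, L.hw]
  obtain ⟨χ, hχ1, hχ2⟩ := com2_chi hz hB0 hB2
  -- the order of the value at `t`
  have hχt : (χ L.t) ^ p ^ m ≠ 1 := by
    intro h
    have h1 : L.t (B ^ p ^ m) = B ^ p ^ m := by
      rw [map_pow, hχ2 L.t, mul_pow]
      have h2 : (((χ L.t : rootsOfUnity (p ^ (m + 1)) Ω) : Ωˣ) : Ω) ^ p ^ m = 1 := by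
        have h3 := congrArg (fun x : rootsOfUnity (p ^ (m + 1)) Ω => ((x : Ωˣ) : Ω)) h
        simpa using h3
      rw [h2, one_mul]
    rw [hB, L.act] at h1
    have h4 : algebraMap K Ω ζ = 1 := mul_right_cancel₀ hw0 (by rw [h1, one_mul])
    have h5 : ζ = 1 := (algebraMap K Ω).injective (by rw [h4, map_one])
    exact hζ.ne_one hp.one_lt h5
  have hall : ∀ x : rootsOfUnity (p ^ (m + 1)) Ω, x ^ (p ^ (m + 1)) = 1 := by
    intro x
    apply Subtype.ext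
    exact x.2
  have hordχ : orderOf (χ L.t) = p ^ (m + 1) := orderOf_eq_prime_pow hχt (hall _)
  have hfin : Finite (rootsOfUnity (p ^ (m + 1)) Ω) := inferInstance
  set ψ : Gal(Ω/K) →* rootsOfUnity (p ^ (m + 1)) Ω × G := χ.prod φ with hψ
  have hft : H38.ML.FT ψ := gtame_ft_prod _ _ hχ1 hφ
  have hpow : ∀ σ ∈ L.P.inertia Gal(Ω/K), ψ σ ^ (p ^ (m + 1)) = 1 := by
    intro σ hσ
    have h1 : ψ σ = (χ σ, φ σ) := rfl
    rw [h1, Prod.pow_mk, hall, he σ hσ]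
    rfl
  have hpg : IsPGroup p ((L.P.inertia Gal(Ω/K)).map ψ) := by
    rintro ⟨x, hx⟩
    obtain ⟨σ, hσ, rfl⟩ := Subgroup.mem_map.1 hx
    exact ⟨m + 1, Subtype.ext (hpow σ hσ)⟩
  obtain ⟨n, hn⟩ := IsPGroup.iff_card.1 hpg
  have hc : ((Nat.card ((L.P.inertia Gal(Ω/K)).map ψ) : ℕ) : 𝓞 K) ∉ v.asIdeal := by
    rw [hn, Nat.cast_pow]
    intro h
    exact hv (v.isPrime.mem_of_pow_mem n h)
  obtain ⟨τ₀, hτ₀, hcyc⟩ := cyc v L.P L.prime L.under ψ hft hc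
  have hordψ : orderOf (ψ L.t) = p ^ (m + 1) := by
    apply Nat.dvd_antisymm (orderOf_dvd_of_pow_eq_one (hpow L.t L.ht))
    refine hordχ.symm.dvd.trans (orderOf_dvd_of_pow_eq_one ?_)
    have h1 : ψ L.t ^ orderOf (ψ L.t) = 1 := pow_orderOf_eq_one _
    exact congrArg Prod.fst h1
  have hle : Subgroup.zpowers (ψ L.t) ≤ Subgroup.zpowers (ψ τ₀) :=
    (Subgroup.zpowers_le).2 (hcyc L.t L.ht)
  have heq : Subgroup.zpowers (ψ L.t) = Subgroup.zpowers (ψ τ₀) := by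
    apply Subgroup.eq_of_le_of_card_ge hle
    rw [Nat.card_zpowers, Nat.card_zpowers, hordψ]
    exact Nat.le_of_dvd (pow_pos hp.pos _) (orderOf_dvd_of_pow_eq_one (hpow τ₀ hτ₀))
  -- conjugation by `F`
  have hnm : 0 < nm v := lt_trans Nat.zero_lt_one (one_lt_nm v)
  have hFP : ∀ y ∈ L.P, F • y ∈ L.P := by
    intro y hy
    have h1 := L.P.add_mem (hF y) (L.P.pow_mem_of_mem hy (nm v) hnm)
    rwa [sub_add_cancel] at h1
  have hconj : F * L.t * F⁻¹ ∈ L.P.inertia Gal(Ω/K) := by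
    intro x
    have h1 : (F * L.t * F⁻¹) • x - x = F • (L.t • (F⁻¹ • x) - F⁻¹ • x) := by
      rw [smul_sub, mul_smul, mul_smul, smul_inv_smul]
    rw [h1]
    exact hFP _ (L.ht (F⁻¹ • x))
  have hz1 := hcyc _ hconj
  rw [← heq] at hz1
  obtain ⟨i, hi⟩ := Subgroup.mem_zpowers_iff.1 hz1
  have hi1 : χ L.t ^ i = χ (F * L.t * F⁻¹) := congrArg Prod.fst hi
  have hi2 : φ L.t ^ i = φ (F * L.t * F⁻¹) := congrArg Prod.snd hi
  have hi3 : χ L.t ^ i = χ L.t := by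
    rw [hi1, map_mul, map_mul, map_inv, mul_comm (χ F), mul_inv_cancel_right]
  have hi4 : χ L.t ^ (i - 1) = 1 := by
    rw [zpow_sub, hi3, zpow_one, mul_inv_cancel]
  have hi5 : ((p ^ (m + 1) : ℕ) : ℤ) ∣ i - 1 := by
    have h1 := orderOf_dvd_iff_zpow_eq_one.2 hi4
    exact (congrArg (Nat.cast : ℕ → ℤ) hordχ).symm.dvd.trans h1
  obtain ⟨k, hk⟩ := hi5
  have hi6 : φ L.t ^ (i - 1) = 1 := by
    rw [hk, zpow_mul, zpow_natCast, he L.t L.ht, one_zpow]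
  have hi7 : φ L.t ^ i = φ L.t := by
    have h1 : i = (i - 1) + 1 := by ring
    rw [h1, zpow_add, hi6, one_mul, zpow_one]
  rw [hi7, map_mul, map_mul, map_inv, eq_mul_inv_iff_mul_eq] at hi2
  exact hi2.symm

theorem frm (hp : p.Prime) (hζ : IsPrimitiveRoot ζ p) {m : ℕ} {z : K}
    (hz : IsPrimitiveRoot z (p ^ (m + 1))) {D : RD0 K p ζ} {L : LDs D Ω} (Fr : FR L) {v : Pl K}
    (hv : v ∉ D.S0) {H : Type} [Group H] [Finite H] (φ : Gal(Ω/K) →* H) (hφ : H38.ML.FT φ)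
    (h : ∀ τ ∈ inr L v, φ τ ^ (p ^ (m + 1)) = 1) :
    φ (Fr.F v) * φ (L.t v) = φ (L.t v) * φ (Fr.F v) := by
  have ht : L.t v = (L.ld v hv).t := by
    unfold LDs.t
    rw [dif_pos hv]
  have hi : inr L v = (L.ld v hv).P.inertia Gal(Ω/K) := by
    unfold inr
    rw [dif_pos hv]
  rw [ht]
  exact comm_m hp hζ hz (fun h => hv (D.above v h)) (D.pi_self v hv) (L.ld v hv) (Fr.fr v hv) φ hφ
    (by rw [← hi]; exact h)

/-- the powers in a `p`-group of small order -/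
theorem pg_pow (hp : p.Prime) {H : Type} [Group H] [Finite H] (hH : IsPGroup p H) {m : ℕ}
    (hM : Nat.card H ≤ p ^ m) (x : H) : x ^ (p ^ m) = 1 := by
  have : Fact p.Prime := ⟨hp⟩
  obtain ⟨k, hk⟩ := IsPGroup.iff_card.1 hH
  have h1 : k ≤ m := by
    rw [hk] at hM
    exact (Nat.pow_le_pow_iff_right hp.one_lt).1 hM
  obtain ⟨j, rfl⟩ := Nat.exists_eq_add_of_le h1
  rw [pow_add, pow_mul, ← hk, pow_card_eq_one', one_pow]

theorem frm_card (hp : p.Prime) (hζ : IsPrimitiveRoot ζ p) {m : ℕ} {z : K}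
    (hz : IsPrimitiveRoot z (p ^ (m + 1))) {D : RD0 K p ζ} {L : LDs D Ω} (Fr : FR L) {v : Pl K}
    (hv : v ∉ D.S0) {H : Type} [Group H] [Finite H] (hH : IsPGroup p H)
    (hM : Nat.card H ≤ p ^ (m + 1)) (φ : Gal(Ω/K) →* H) (hφ : H38.ML.FT φ) :
    φ (Fr.F v) * φ (L.t v) = φ (L.t v) * φ (Fr.F v) :=
  frm hp hζ hz Fr hv φ hφ fun τ _ => pg_pow hp hH hM (φ τ)

end H77.WE
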