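import Pool.Agent.H77.WE.Dcg

/-!
# H77-WE-LOC: homomorphisms with given commuting values at the inertia generator and the Frobenius element

* `mat_unit`: a matrix over `ZMod (p ^ (m + 1))` with unit upper left entry, lower left entry divisible by `p` and unit lower right entry.
* `loc_ex`: `T`, `U` commuting elements of a `p`-group of order at most `p ^ (m + 1)`: there is a homomorphism of finite type with the values `T` at `L.t v` and
  `U` at the Frobenius element.
-/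

set_option autoImplicit false
set_option linter.dupNamespace false

open scoped NumberField Pointwise
open IsDedekindDomain

noncomputable section

namespace H77.WE

open H63.MA H38.BB H38.BG H57.PC H57.BRA H77.WD

theorem unit_of_pm {p m : ℕ} (hp : p.Prime) (x : ZMod (p ^ (m + 1)))
    (h : ((p ^ m : ℕ) : ZMod (p ^ (m + 1))) * x ≠ 0) : IsUnit x := by
  have : NeZero (p ^ (m + 1)) := ⟨pow_ne_zero _ hp.ne_zero⟩
  rw [← ZMod.natCast_zmod_val x, ZMod.isUnit_iff_coprime]
  refine Nat.Coprime.pow_right _ (Nat.Coprime.symm ((Nat.Prime.coprime_iff_not_dvd hp).2 ?_))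
  rintro ⟨k, hk⟩
  apply h
  rw [← ZMod.natCast_zmod_val x, hk, ← Nat.cast_mul, ← mul_assoc, ← pow_succ, Nat.cast_mul,
    ZMod.natCast_self, zero_mul]

/-- two characters with invertible matrix of values give all pairs of commuting values -/
theorem two_ch {Γ H : Type} [Group Γ] [Group H] {N : ℕ} [NeZero N] (a b : Γ →* Multiplicative (ZMod N))
    (t F : Γ)
    (hd : IsUnit (Multiplicative.toAdd (a t) * Multiplicative.toAdd (b F) -
      Multiplicative.toAdd (a F) * Multiplicative.toAdd (b t)))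
    (T U : H) (hT : T ^ N = 1) (hU : U ^ N = 1) (hTU : T * U = U * T) :
    ∃ ψ : Γ →* H, ψ t = T ∧ ψ F = U ∧ ∀ σ, a σ = 1 → b σ = 1 → ψ σ = 1 := by
  obtain ⟨d, hd⟩ := hd
  have hadd : ∀ (X : H), X ^ N = 1 → ∀ x y : ZMod N, X ^ (x + y).val = X ^ x.val * X ^ y.val := by
    intro X hX x y
    rw [ZMod.val_add, ← pow_add]
    conv_rhs => rw [← Nat.div_add_mod (x.val + y.val) N, pow_add, pow_mul, hX, one_pow, one_mul]
  set x : Γ → ZMod N := fun σ => (↑(d⁻¹) : ZMod N) * (Multiplicative.toAdd (b F) *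
    Multiplicative.toAdd (a σ) - Multiplicative.toAdd (a F) * Multiplicative.toAdd (b σ)) with hx
  set y : Γ → ZMod N := fun σ => (↑(d⁻¹) : ZMod N) * (Multiplicative.toAdd (a t) *
    Multiplicative.toAdd (b σ) - Multiplicative.toAdd (b t) * Multiplicative.toAdd (a σ)) with hy
  have hxm : ∀ σ τ, x (σ * τ) = x σ + x τ := by
    intro σ τ
    simp only [hx, map_mul, toAdd_mul]
    ring
  have hym : ∀ σ τ, y (σ * τ) = y σ + y τ := by
    intro σ τ
    simp only [hy, map_mul, toAdd_mul]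
    ring
  have hcom : ∀ i j : ℕ, T ^ i * U ^ j = U ^ j * T ^ i := fun i j =>
    (Commute.pow_pow (show Commute T U from hTU) i j).eq
  have hdd : (↑(d⁻¹) : ZMod N) * (Multiplicative.toAdd (a t) * Multiplicative.toAdd (b F) -
      Multiplicative.toAdd (a F) * Multiplicative.toAdd (b t)) = 1 := by
    rw [← hd]
    exact d.inv_mul
  have hpow1 : ∀ X : H, X ^ N = 1 → X ^ (1 : ZMod N).val = X := by
    intro X hX
    rcases Nat.eq_or_lt_of_le (Nat.one_le_iff_ne_zero.2 (NeZero.ne N)) with h1 | h1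
    · rw [← h1, pow_one] at hX
      rw [hX, one_pow]
    · have : Fact (1 < N) := ⟨h1⟩
      rw [ZMod.val_one, pow_one]
  refine ⟨MonoidHom.mk' (fun σ => T ^ (x σ).val * U ^ (y σ).val) ?_, ?_, ?_, ?_⟩
  · intro σ τ
    rw [hxm, hym, hadd T hT, hadd U hU]
    calc _ = T ^ (x σ).val * (T ^ (x τ).val * U ^ (y σ).val) * U ^ (y τ).val := by
          simp only [mul_assoc]
      _ = T ^ (x σ).val * (U ^ (y σ).val * T ^ (x τ).val) * U ^ (y τ).val := by rw [hcom]
      _ = _ := by simp only [mul_assoc]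
  · have h1 : x t = 1 := by
      rw [← hdd, hx]
      ring
    have h2 : y t = 0 := by
      simp only [hy]
      ring
    change T ^ (x t).val * U ^ (y t).val = T
    rw [h1, h2, ZMod.val_zero, pow_zero, mul_one, hpow1 T hT]
  · have h1 : x F = 0 := by
      simp only [hx]
      ring
    have h2 : y F = 1 := by
      rw [← hdd, hy]
      ring
    change T ^ (x F).val * U ^ (y F).val = U
    rw [h1, h2, ZMod.val_zero, pow_zero, one_mul, hpow1 U hU]
  · intro σ h1 h2
    change T ^ (x σ).val * U ^ (y σ).val = 1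
    have h3 : x σ = 0 := by
      simp only [hx, h1, h2, toAdd_one, mul_zero, sub_zero]
    have h4 : y σ = 0 := by
      simp only [hy, h1, h2, toAdd_one, mul_zero, sub_zero]
    rw [h3, h4, ZMod.val_zero, pow_zero, pow_zero, mul_one]

variable {K : Type} [Field K] [NumberField K] {Ω : Type} [Field Ω] [Algebra K Ω] [IsAlgClosure K Ω]
  {p : ℕ} {ζ : K}

/-- a character of level `p ^ (m + 1)` over the Kummer character of `c` -/
theorem ch_lift (hp : p.Prime) (hζ : IsPrimitiveRoot ζ p) {m : ℕ} {z : K}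
    (hz : IsPrimitiveRoot z (p ^ (m + 1))) (c : Kˣ) :
    ∃ a : Gal(Ω/K) →* Multiplicative (ZMod (p ^ (m + 1))), H38.ML.FT a ∧
      ∀ σ, kk p ζ c σ = 0 ↔ ((p ^ m : ℕ) : ZMod (p ^ (m + 1))) * Multiplicative.toAdd (a σ) = 0 := by
  have hN0 : NeZero (p ^ (m + 1)) := ⟨pow_ne_zero _ hp.ne_zero⟩
  have hcl : IsAlgClosed Ω := IsAlgClosure.isAlgClosed K
  obtain ⟨B, hB⟩ := IsAlgClosed.exists_pow_nat_eq (algebraMap K Ω (c : K))
    (pow_pos hp.pos (m + 1))
  have hc0 : algebraMap K Ω (c : K) ≠ 0 := (map_ne_zero _).2 c.ne_zero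
  have hB0 : B ≠ 0 := by
    intro h
    rw [h, zero_pow (pow_ne_zero _ hp.ne_zero)] at hB
    exact hc0 hB.symm
  obtain ⟨χ, hχ1, hχ2⟩ := com2_chi hz hB0 hB
  have hzΩ : IsPrimitiveRoot (algebraMap K Ω z) (p ^ (m + 1)) :=
    hz.map_of_injective (algebraMap K Ω).injective
  have hcard : Nat.card (rootsOfUnity (p ^ (m + 1)) Ω) = p ^ (m + 1) := hzΩ.card_rootsOfUnity
  have hcyc : IsCyclic (rootsOfUnity (p ^ (m + 1)) Ω) := rootsOfUnity.isCyclic Ω (p ^ (m + 1))
  obtain ⟨e⟩ : Nonempty (rootsOfUnity (p ^ (m + 1)) Ω ≃* Multiplicative (ZMod (p ^ (m + 1)))) := by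
    have h1 := zmodCyclicMulEquiv hcyc
    rw [hcard] at h1
    exact ⟨h1.symm⟩
  refine ⟨e.toMonoidHom.comp χ, ft_comp _ hχ1, fun σ => ?_⟩
  have h1 : ((p ^ m : ℕ) : ZMod (p ^ (m + 1))) *
      Multiplicative.toAdd ((e.toMonoidHom.comp χ) σ) = 0 ↔ (χ σ) ^ p ^ m = 1 := by
    have h2 : ((p ^ m : ℕ) : ZMod (p ^ (m + 1))) * Multiplicative.toAdd (e (χ σ)) =
        Multiplicative.toAdd (e ((χ σ) ^ p ^ m)) := by
      rw [map_pow, toAdd_pow, nsmul_eq_mul]
    change ((p ^ m : ℕ) : ZMod (p ^ (m + 1))) * Multiplicative.toAdd (e (χ σ)) = 0 ↔ _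
    rw [h2]
    constructor
    · intro h3
      have h4 : e ((χ σ) ^ p ^ m) = 1 := Multiplicative.toAdd.injective h3
      exact e.injective (h4.trans (map_one e).symm)
    · intro h3
      rw [h3, map_one, toAdd_one]
  rw [h1]
  have hB1 : (B ^ p ^ m) ^ p = algebraMap K Ω (c : K) := by
    rw [← pow_mul, ← pow_succ, hB]
  have h2 : σ (B ^ p ^ m) = (((χ σ ^ p ^ m : rootsOfUnity (p ^ (m + 1)) Ω) : Ωˣ) : Ω) *
      B ^ p ^ m := by
    rw [map_pow, hχ2, mul_pow]
    push_cast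
    rfl
  have hBm : B ^ p ^ m ≠ 0 := pow_ne_zero _ hB0
  have h3 := kk_root hp hζ c (B ^ p ^ m) hB1 σ
  rw [h3] at h2
  have h4 := mul_right_cancel₀ hBm h2
  constructor
  · intro h5
    rw [h5, ZMod.val_zero, pow_zero] at h4
    apply Subtype.ext
    apply Units.ext
    exact h4.symm
  · intro h5
    rw [h5] at h4
    have h6 : algebraMap K Ω ζ ^ (kk p ζ c σ).val = 1 := h4
    have h7 := (hζ.map_of_injective (algebraMap K Ω).injective).pow_eq_one_iff_dvd _ |>.1 h6
    have h8 : NeZero p := ⟨hp.ne_zero⟩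
    have h9 := Nat.eq_zero_of_dvd_of_lt h7 (ZMod.val_lt _)
    exact (ZMod.val_eq_zero _).1 h9

theorem loc_ex (hp : p.Prime) (hζ : IsPrimitiveRoot ζ p) {m : ℕ} {z : K}
    (hz : IsPrimitiveRoot z (p ^ (m + 1))) {D : RD0 K p ζ} (L : LDs D Ω) {v : Pl K}
    (hv : v ∉ D.S0) {F : Gal(Ω/K)} (hkk : ∀ a : Kˣ, kk p ζ a F = D.LL v a) {H : Type} [Group H]
    (T U : H) (hT : T ^ (p ^ (m + 1)) = 1) (hU : U ^ (p ^ (m + 1)) = 1) (hTU : T * U = U * T) :
    ∃ ψ : Gal(Ω/K) →* H, H38.ML.FT ψ ∧ ψ (L.t v) = T ∧ ψ F = U := by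
  have hN0 : NeZero (p ^ (m + 1)) := ⟨pow_ne_zero _ hp.ne_zero⟩
  have hpf : Fact p.Prime := ⟨hp⟩
  have hav : ¬ Above p v := fun h => hv (D.above v h)
  obtain ⟨c, -, -, hc⟩ := aux2 hp hζ (∅ : Finset (Pl K)) {v} (fun v h => absurd h (by simp))
    (fun w hw => by
      rw [Finset.mem_singleton.1 hw]
      exact hav) (fun v h => absurd h (by simp))
  obtain ⟨hc0, hc1⟩ := hc v (Finset.mem_singleton_self v)
  obtain ⟨a, ha1, ha2⟩ := ch_lift (Ω := Ω) hp hζ hz (D.pi v)
  obtain ⟨b, hb1, hb2⟩ := ch_lift (Ω := Ω) hp hζ hz c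
  have h1 : kk p ζ (D.pi v) (L.t v) = 1 := (kk_pi hp hζ D L v v hv hv).1 rfl
  have h2 : kk p ζ c (L.t v) = 0 := by
    rw [kk_t hp hζ L hv, hc0, Int.cast_zero]
  have h3 : kk p ζ c F ≠ 0 := by
    rw [hkk]
    have h4 : D.LL v c = lg p ζ v c := by
      change lgv p ζ v (D.pi v) c = _
      unfold lgv
      rw [hc0, neg_zero, zpow_zero, mul_one]
    rw [h4, hc1]
    exact one_ne_zero
  have hat : IsUnit (Multiplicative.toAdd (a (L.t v))) := unit_of_pm hp _ fun h => by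
    have := (ha2 (L.t v)).2 h
    rw [h1] at this
    exact one_ne_zero this
  have hd : IsUnit (Multiplicative.toAdd (a (L.t v)) * Multiplicative.toAdd (b F) -
      Multiplicative.toAdd (a F) * Multiplicative.toAdd (b (L.t v))) := by
    refine unit_of_pm hp _ fun h => ?_
    have h5 := (hb2 (L.t v)).1 h2
    have h6 : Multiplicative.toAdd (a (L.t v)) *
        (((p ^ m : ℕ) : ZMod (p ^ (m + 1))) * Multiplicative.toAdd (b F)) = 0 := by
      calc _ = ((p ^ m : ℕ) : ZMod (p ^ (m + 1))) * (Multiplicative.toAdd (a (L.t v)) *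
            Multiplicative.toAdd (b F) - Multiplicative.toAdd (a F) *
              Multiplicative.toAdd (b (L.t v))) + Multiplicative.toAdd (a F) *
            (((p ^ m : ℕ) : ZMod (p ^ (m + 1))) * Multiplicative.toAdd (b (L.t v))) := by ring
        _ = 0 := by rw [h, h5, mul_zero, add_zero]
    exact h3 ((hb2 F).2 ((hat.mul_right_eq_zero).1 h6))
  obtain ⟨ψ, hψ1, hψ2, hψ3⟩ := two_ch a b (L.t v) F hd T U hT hU hTU
  refine ⟨ψ, ?_, hψ1, hψ2⟩
  obtain ⟨E, hE, hle⟩ := ha1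
  obtain ⟨E', hE', hle'⟩ := hb1
  refine ⟨E ⊔ E', inferInstance, fun u hu => ?_⟩
  have e2 : u ∈ E.fixingSubgroup := IntermediateField.fixingSubgroup_antitone le_sup_left hu
  have e3 : u ∈ E'.fixingSubgroup := IntermediateField.fixingSubgroup_antitone le_sup_right hu
  exact MonoidHom.mem_ker.2 (hψ3 u (MonoidHom.mem_ker.1 (hle e2)) (MonoidHom.mem_ker.1 (hle' e3)))

end H77.WE
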